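import Pool.Agent.Lib.MP_edb5be_nt.ND.Iface2
import Pool.Agent.Lib.MP_edb5be_nt.ND.H82.S1B

/-!
Module PV1 (project ND, part 2): first moment of the visits. (helper72)
-/

set_option autoImplicit false

namespace Pool.Agent.Lib.MP_edb5be_nt.ND.H72

open Finset Pool.Agent.Lib.MP_0a5adf_nt.TP Pool.Agent.Lib.MP_0a5adf_nt.TP.H60
open Pool.Agent.Lib.MP_edb5be_nt.ND.H82 (Pc_nonneg Fam_eq_empty nontyp mem_typ three_pow_le
  rpow_logb_two pos_of_mem_blk)

open Classical in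
/-- The window, as an indicator function. -/
noncomputable def wd (z x : ℝ) (i s M : ℕ) : ℝ :=
  if z + 2 * x ≤ Real.logb 2 M + i - th * s ∧ Real.logb 2 M + i - th * s ≤ z + 1 - 2 * x
    then 1 else 0

theorem wd_nonneg (z x : ℝ) (i s M : ℕ) : 0 ≤ wd z x i s M := by
  unfold wd
  split_ifs <;> norm_num

theorem wd_le (z x : ℝ) (i s M : ℕ) : wd z x i s M ≤ 1 := by
  unfold wd
  split_ifs <;> norm_num

theorem bw_nonneg (j v : ℕ) : 0 ≤ bw j v := by
  unfold bw
  positivity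

open Classical in
theorem visits (d : Bool) (E I : Finset ℕ) (a b n : ℕ) (h : I ⊆ range n) :
    ∑ i ∈ I, (((Ico a b).filter fun N => (T d)^[i] N ∈ E).card : ℝ) ≤
      ∑ N ∈ Ico a b, (((range n).filter fun i => (T d)^[i] N ∈ E).card : ℝ) := by
  simp only [Finset.card_filter, Nat.cast_sum, Nat.cast_ite, Nat.cast_one, Nat.cast_zero]
  rw [Finset.sum_comm]
  refine Finset.sum_le_sum fun N _ => Finset.sum_le_sum_of_subset_of_nonneg h fun i _ _ => ?_
  split_ifs <;> norm_num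

/-- The first error term. -/
theorem errB (hmix : MixStatement) {C₄ : ℝ} (hC : 0 < C₄)
    (hjosc : ∀ n c₁ : ℕ, 1 ≤ n → Josc n c₁ ≤ C₄ / (n : ℝ) ^ 4) {d : Bool} {E : Finset ℕ}
    {k i m D : ℕ} {z x : ℝ} (hE : E ⊆ blk k 1) (hm : 1 ≤ m)
    (hs : ∀ s ∈ typ i D, m ≤ s ∧ 3 ^ s ≤ 2 ^ k) :
    ∑ M ∈ E, 1 / (M : ℝ) * ∑ s ∈ typ i D, wd z x i s M * (3 ^ m * Pc m i s (sg d * M)) ≤
      ∑ M ∈ E, 1 / (M : ℝ) * ∑ s ∈ typ i D, wd z x i s M * (3 ^ s * Pc s i s (sg d * M)) +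
        ((i : ℝ) + 1) * (2 * (i * (C₄ / (m : ℝ) ^ 4))) := by
  classical
  have hm0 : (0 : ℝ) < m := by exact_mod_cast hm
  have h1 : ∑ M ∈ E, 1 / (M : ℝ) * ∑ s ∈ typ i D, wd z x i s M * (3 ^ m * Pc m i s (sg d * M)) ≤
      ∑ M ∈ E, (1 / (M : ℝ) * ∑ s ∈ typ i D, wd z x i s M * (3 ^ s * Pc s i s (sg d * M)) +
        ∑ s ∈ typ i D, 1 / (M : ℝ) *
          |3 ^ s * Pc s i s (sg d * M) - 3 ^ m * Pc m i s (sg d * M)|) := by
    refine Finset.sum_le_sum fun M _ => ?_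
    rw [← Finset.mul_sum, ← mul_add, ← Finset.sum_add_distrib]
    refine mul_le_mul_of_nonneg_left (Finset.sum_le_sum fun s _ => ?_) (by positivity)
    have h2 := wd_nonneg z x i s M
    have h3 := wd_le z x i s M
    have h4 := neg_abs_le (3 ^ s * Pc s i s (sg d * M) - 3 ^ m * Pc m i s (sg d * M))
    have h5 := abs_nonneg (3 ^ s * Pc s i s (sg d * M) - 3 ^ m * Pc m i s (sg d * M))
    have h6 := mul_le_mul_of_nonneg_right h3 h5
    have h7 := mul_le_mul_of_nonneg_left h4 h2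
    rw [mul_sub] at h7
    linarith
  refine h1.trans ?_
  rw [Finset.sum_add_distrib]
  refine add_le_add le_rfl ?_
  rw [Finset.sum_comm]
  have h8 : ∀ s ∈ typ i D, ∑ M ∈ E, 1 / (M : ℝ) *
      |3 ^ s * Pc s i s (sg d * M) - 3 ^ m * Pc m i s (sg d * M)| ≤
        2 * (i * (C₄ / (m : ℝ) ^ 4)) := by
    intro s hst
    obtain ⟨hms, h3s⟩ := hs s hst
    have hsi : s ≤ i := (mem_typ hst).1
    have hmx := hmix d m i s k 1 hms h3s
    have hj : ∑ n ∈ Ioc m s, Josc n (i + 1) ≤ i * (C₄ / (m : ℝ) ^ 4) := by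
      refine (Finset.sum_le_card_nsmul _ _ (C₄ / (m : ℝ) ^ 4) ?_).trans ?_
      · intro n hn
        obtain ⟨h1, h2⟩ := Finset.mem_Ioc.1 hn
        refine (hjosc n (i + 1) (by omega)).trans ?_
        apply div_le_div_of_nonneg_left hC.le (by positivity)
        apply pow_le_pow_left₀ hm0.le
        exact_mod_cast h1.le
      · rw [nsmul_eq_mul, Nat.card_Ioc]
        apply mul_le_mul_of_nonneg_right _ (by positivity)
        exact_mod_cast (by omega : s - m ≤ i)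
    calc ∑ M ∈ E, 1 / (M : ℝ) * |3 ^ s * Pc s i s (sg d * M) - 3 ^ m * Pc m i s (sg d * M)| ≤
        ∑ M ∈ blk k 1, 1 / (M : ℝ) *
          |3 ^ s * Pc s i s (sg d * M) - 3 ^ m * Pc m i s (sg d * M)| :=
          Finset.sum_le_sum_of_subset_of_nonneg hE fun _ _ _ => by positivity
      _ ≤ _ := hmx
      _ ≤ 2 * (i * (C₄ / (m : ℝ) ^ 4)) := by
          push_cast
          linarith
  refine (Finset.sum_le_card_nsmul _ _ _ h8).trans ?_
  rw [nsmul_eq_mul]
  have h2 : ((typ i D).card : ℝ) ≤ (i : ℝ) + 1 := by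
    have : (typ i D).card ≤ (range (i + 1)).card := Finset.card_le_card (Finset.filter_subset _ _)
    rw [Finset.card_range] at this
    exact_mod_cast this
  exact mul_le_mul_of_nonneg_right h2 (by positivity)

/-- The second error term. -/
theorem errC (hphi : PhiStatement) (hh : HoeffStatement) {d : Bool} {E : Finset ℕ}
    {k i m D : ℕ} {z x : ℝ} (hE : E ⊆ blk k 1) (h3m : 3 ^ m ≤ 2 ^ k)
    (hs : ∀ s ∈ typ i D, m ≤ s) :
    ∑ M ∈ E, 1 / (M : ℝ) * ∑ s ∈ Icc m i, wd z x i s M * (3 ^ m * Pc m i s (sg d * M)) ≤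
      ∑ M ∈ E, 1 / (M : ℝ) * ∑ s ∈ typ i D, wd z x i s M * (3 ^ m * Pc m i s (sg d * M)) +
        4 * Real.exp (-((D : ℝ) ^ 2 / (2 * i))) := by
  classical
  have hsub : typ i D ⊆ Icc m i := by
    intro s hst
    exact Finset.mem_Icc.2 ⟨hs s hst, (mem_typ hst).1⟩
  have e1 : ∀ M : ℕ, ∑ s ∈ Icc m i, wd z x i s M * (3 ^ m * Pc m i s (sg d * M)) =
      ∑ s ∈ Icc m i \ typ i D, wd z x i s M * (3 ^ m * Pc m i s (sg d * M)) +
      ∑ s ∈ typ i D, wd z x i s M * (3 ^ m * Pc m i s (sg d * M)) := fun M =>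
    (Finset.sum_sdiff hsub).symm
  have e2 : ∑ M ∈ E, 1 / (M : ℝ) *
      ∑ s ∈ Icc m i, wd z x i s M * (3 ^ m * Pc m i s (sg d * M)) =
      ∑ s ∈ Icc m i \ typ i D, ∑ M ∈ E, 1 / (M : ℝ) *
        (wd z x i s M * (3 ^ m * Pc m i s (sg d * M))) +
      ∑ M ∈ E, 1 / (M : ℝ) *
        ∑ s ∈ typ i D, wd z x i s M * (3 ^ m * Pc m i s (sg d * M)) := by
    rw [Finset.sum_comm, ← Finset.sum_add_distrib]
    refine Finset.sum_congr rfl fun M _ => ?_
    rw [e1 M, mul_add, Finset.mul_sum]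
  rw [e2, add_comm]
  refine add_le_add le_rfl ?_
  calc ∑ s ∈ Icc m i \ typ i D, ∑ M ∈ E, 1 / (M : ℝ) *
        (wd z x i s M * (3 ^ m * Pc m i s (sg d * M))) ≤
      ∑ s ∈ Icc m i \ typ i D, 2 * ((i.choose s : ℝ) / 2 ^ i) := by
        refine Finset.sum_le_sum fun s _ => ?_
        have h1 := hphi.2.2.1 d m i s k 1 h3m
        calc ∑ M ∈ E, 1 / (M : ℝ) * (wd z x i s M * (3 ^ m * Pc m i s (sg d * M))) ≤
            ∑ M ∈ E, 1 / (M : ℝ) * (3 ^ m * Pc m i s (sg d * M)) := by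
              refine Finset.sum_le_sum fun M _ => ?_
              refine mul_le_mul_of_nonneg_left ?_ (by positivity)
              have h2 := Pc_nonneg m i s (sg d * M)
              have h3 : 0 ≤ 3 ^ m * Pc m i s (sg d * M) := by positivity
              have h4 := mul_le_mul_of_nonneg_right (wd_le z x i s M) h3
              linarith
          _ ≤ ∑ M ∈ blk k 1, 1 / (M : ℝ) * (3 ^ m * Pc m i s (sg d * M)) :=
              Finset.sum_le_sum_of_subset_of_nonneg hE fun M _ _ => by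
                have h2 := Pc_nonneg m i s (sg d * M)
                positivity
          _ ≤ _ := h1
          _ = 2 * ((i.choose s : ℝ) / 2 ^ i) := by
              push_cast
              ring
    _ = 2 * ∑ s ∈ Icc m i \ typ i D, (i.choose s : ℝ) / 2 ^ i := by rw [Finset.mul_sum]
    _ ≤ 4 * Real.exp (-((D : ℝ) ^ 2 / (2 * i))) := by
        have := nontyp hh m i D
        linarith

theorem sum_shift {F : ℕ → ℝ} (hF : ∀ i, 0 ≤ F i) {J I : Finset ℕ} {c : ℕ}
    (h : ∀ j ∈ J, j + c ∈ I) : ∑ j ∈ J, F (j + c) ≤ ∑ i ∈ I, F i := by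
  have e : ∑ j ∈ J, F (j + c) = ∑ i ∈ J.map (addRightEmbedding c), F i := by
    rw [Finset.sum_map]
    rfl
  rw [e]
  refine Finset.sum_le_sum_of_subset_of_nonneg ?_ fun i _ _ => hF i
  intro i hi
  obtain ⟨j, hj, rfl⟩ := Finset.mem_map.1 hi
  exact h j hj

open Classical in
/-- From the pairs `(j, v)` to the pairs `(i, s)`. -/
theorem renew_shift {c₀ τ η z x : ℝ} {J I : Finset ℕ} {m c M : ℕ}
    (h : c₀ ≤ ∑ j ∈ J, ∑ v ∈ range (j + 1),
        if τ + η ≤ j - th * v ∧ j - th * v ≤ τ + 1 - η then bw j v else 0)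
    (hmc : m ≤ c) (hη : η = 2 * x) (hτ : τ = z - Real.logb 2 M - c + th * m)
    (hI : ∀ j ∈ J, j + c ∈ I) :
    c₀ ≤ ∑ i ∈ I, ∑ s ∈ Icc m i, wd z x i s M * bw (i - c) (s - m) := by
  refine h.trans ?_
  have hnn : ∀ i s : ℕ, 0 ≤ wd z x i s M * bw (i - c) (s - m) := fun i s =>
    mul_nonneg (wd_nonneg _ _ _ _ _) (bw_nonneg _ _)
  have h1 : ∀ j ∈ J, (∑ v ∈ range (j + 1),
      if τ + η ≤ j - th * v ∧ j - th * v ≤ τ + 1 - η then bw j v else 0) ≤
      ∑ s ∈ Icc m (j + c), wd z x (j + c) s M * bw (j + c - c) (s - m) := by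
    intro j _
    have e : ∀ v ∈ range (j + 1),
        (if τ + η ≤ j - th * v ∧ j - th * v ≤ τ + 1 - η then bw j v else 0) =
        wd z x (j + c) (v + m) M * bw (j + c - c) (v + m - m) := by
      intro v _
      rw [Nat.add_sub_cancel, Nat.add_sub_cancel]
      unfold wd
      push_cast
      have e1 : (τ + η ≤ j - th * v ∧ j - th * v ≤ τ + 1 - η) ↔
          (z + 2 * x ≤ Real.logb 2 M + (j + c) - th * (v + m) ∧
            Real.logb 2 M + (j + c) - th * (v + m) ≤ z + 1 - 2 * x) := by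
        rw [hη, hτ, mul_add]
        constructor
        · rintro ⟨a, b⟩
          constructor <;> linarith
        · rintro ⟨a, b⟩
          constructor <;> linarith
      by_cases hc : τ + η ≤ j - th * v ∧ j - th * v ≤ τ + 1 - η
      · rw [if_pos hc, if_pos (e1.1 hc), one_mul]
      · rw [if_neg hc, if_neg fun hd => hc (e1.2 hd), zero_mul]
    rw [Finset.sum_congr rfl e]
    refine sum_shift (F := fun s => wd z x (j + c) s M * bw (j + c - c) (s - m))
      (fun s => hnn _ _) fun v hv => ?_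
    have := Finset.mem_range.1 hv
    exact Finset.mem_Icc.2 ⟨by omega, by omega⟩
  refine (Finset.sum_le_sum h1).trans ?_
  exact sum_shift (F := fun i => ∑ s ∈ Icc m i, wd z x i s M * bw (i - c) (s - m))
    (fun i => Finset.sum_nonneg fun s _ => hnn _ _) hI

theorem f_nonneg (m c : ℕ) (X : ZMod (3 ^ m)) : 0 ≤ f m c X := by
  unfold f
  positivity

theorem f_eq_zero {m c : ℕ} (h : c < m) (X : ZMod (3 ^ m)) : f m c X = 0 := by
  unfold f
  rw [Fam_eq_empty h]
  simp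

/-- The main term. -/
theorem main_term (hps : PsplitStatement) {d : Bool} {E I : Finset ℕ} {k m : ℕ} {z x c₀ : ℝ}
    (hE : E ⊆ blk k 1) (hI : ∀ i ∈ I, 4 * m ≤ i) (hc₀ : 0 ≤ c₀)
    (hR : ∀ M ∈ E, ∀ c ∈ Icc m (4 * m),
      c₀ ≤ ∑ i ∈ I, ∑ s ∈ Icc m i, wd z x i s M * bw (i - c) (s - m)) :
    c₀ / 2 * ((∑ M ∈ E, Phi m (sg d * M)) / 2 ^ k) ≤
      ∑ i ∈ I, ∑ M ∈ E, 1 / (M : ℝ) *
        ∑ s ∈ Icc m i, wd z x i s M * (3 ^ m * Pc m i s (sg d * M)) := by
  classical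
  have e1 : ∀ M : ℕ, Phi m (sg d * M) =
      ∑ c ∈ Icc m (4 * m), 3 ^ m * f m c ((sg d * M : ℤ) : ZMod (3 ^ m)) := by
    intro M
    unfold Phi
    rw [← Finset.mul_sum]
    congr 1
    symm
    refine Finset.sum_subset ?_ ?_
    · intro c hc
      have := Finset.mem_Icc.1 hc
      exact Finset.mem_range.2 (by omega)
    · intro c hc hn
      have h1 := Finset.mem_range.1 hc
      have h2 : c < m := by
        by_contra h3
        exact hn (Finset.mem_Icc.2 ⟨by omega, by omega⟩)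
      exact f_eq_zero h2 _
  have h1 : ∀ M ∈ E, c₀ / 2 * (Phi m (sg d * M) / 2 ^ k) ≤
      1 / (M : ℝ) * ∑ i ∈ I, ∑ s ∈ Icc m i, wd z x i s M * (3 ^ m * Pc m i s (sg d * M)) := by
    intro M hM
    obtain ⟨hM1, hM2⟩ := Finset.mem_Ico.1 (hE hM)
    have hM0 : (0 : ℝ) < M := by
      have : 0 < M := lt_of_lt_of_le (by positivity) hM1
      exact_mod_cast this
    have hM3 : (M : ℝ) ≤ 2 * 2 ^ k := by
      have : M ≤ 2 * 2 ^ k := by
        rw [pow_succ] at hM2
        omega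
      exact_mod_cast this
    have h2 : c₀ * Phi m (sg d * M) ≤
        ∑ i ∈ I, ∑ s ∈ Icc m i, wd z x i s M * (3 ^ m * Pc m i s (sg d * M)) := by
      have h3 : ∀ i ∈ I, ∑ c ∈ Icc m (4 * m), 3 ^ m * f m c ((sg d * M : ℤ) : ZMod (3 ^ m)) *
          ∑ s ∈ Icc m i, wd z x i s M * bw (i - c) (s - m) ≤
          ∑ s ∈ Icc m i, wd z x i s M * (3 ^ m * Pc m i s (sg d * M)) := by
        intro i hi
        simp_rw [Finset.mul_sum]
        rw [Finset.sum_comm]
        refine Finset.sum_le_sum fun s hs => ?_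
        rw [hps m i s _ (Finset.mem_Icc.1 hs).1]
        have h4 : ∑ c ∈ Icc m (4 * m), f m c ((sg d * M : ℤ) : ZMod (3 ^ m)) *
            (((i - c).choose (s - m) : ℝ) / 2 ^ (i - c)) ≤
            ∑ c ∈ range (i + 1), f m c ((sg d * M : ℤ) : ZMod (3 ^ m)) *
            (((i - c).choose (s - m) : ℝ) / 2 ^ (i - c)) := by
          refine Finset.sum_le_sum_of_subset_of_nonneg ?_ fun c _ _ =>
            mul_nonneg (f_nonneg _ _ _) (by positivity)
          intro c hc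
          have := Finset.mem_Icc.1 hc
          have := hI i hi
          exact Finset.mem_range.2 (by omega)
        have h5 : 0 ≤ wd z x i s M * 3 ^ m := mul_nonneg (wd_nonneg _ _ _ _ _) (by positivity)
        calc ∑ c ∈ Icc m (4 * m), 3 ^ m * f m c ((sg d * M : ℤ) : ZMod (3 ^ m)) *
              (wd z x i s M * bw (i - c) (s - m)) =
            wd z x i s M * 3 ^ m * ∑ c ∈ Icc m (4 * m),
              f m c ((sg d * M : ℤ) : ZMod (3 ^ m)) *
              (((i - c).choose (s - m) : ℝ) / 2 ^ (i - c)) := by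
              rw [Finset.mul_sum]
              refine Finset.sum_congr rfl fun c _ => ?_
              unfold bw
              ring
          _ ≤ wd z x i s M * 3 ^ m * ∑ c ∈ range (i + 1),
              f m c ((sg d * M : ℤ) : ZMod (3 ^ m)) *
              (((i - c).choose (s - m) : ℝ) / 2 ^ (i - c)) :=
              mul_le_mul_of_nonneg_left h4 h5
          _ = _ := by ring
      refine le_trans ?_ (Finset.sum_le_sum h3)
      rw [Finset.sum_comm, e1 M, Finset.mul_sum]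
      refine Finset.sum_le_sum fun c hc => ?_
      rw [← Finset.mul_sum, mul_comm]
      refine mul_le_mul_of_nonneg_left (hR M hM c hc) ?_
      exact mul_nonneg (by positivity) (f_nonneg _ _ _)
    have h6 : 0 ≤ Phi m (sg d * M) := by
      rw [e1 M]
      exact Finset.sum_nonneg fun c _ => mul_nonneg (by positivity) (f_nonneg _ _ _)
    calc c₀ / 2 * (Phi m (sg d * M) / 2 ^ k) = c₀ * Phi m (sg d * M) / (2 * 2 ^ k) := by
          field_simp
      _ ≤ c₀ * Phi m (sg d * M) / M :=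
          div_le_div_of_nonneg_left (by positivity) hM0 hM3
      _ = 1 / (M : ℝ) * (c₀ * Phi m (sg d * M)) := by ring
      _ ≤ _ := mul_le_mul_of_nonneg_left h2 (by positivity)
  rw [Finset.sum_comm, Finset.sum_div, Finset.mul_sum]
  refine (Finset.sum_le_sum h1).trans (le_of_eq ?_)
  exact Finset.sum_congr rfl fun M _ => by rw [Finset.mul_sum]

/-- The range of the times. -/
theorem range_j {k z m c M j : ℕ} {τ : ℝ} (hk : 10 ^ 10 ≤ k) (hM : M ∈ blk k 1)
    (hz : z = 121 * k / 100 + 1) (hm : m = k / 100) (hc : c ∈ Icc m (4 * m))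
    (hτ : τ = z - Real.logb 2 M - c + th * m) :
    (k : ℝ) / 10 ≤ τ ∧ (|(j : ℝ) - τ / mu| ≤ τ / 50 → j + c ∈ Icc (k / 2) (11 * k / 10)) := by
  obtain ⟨hM1, hM2⟩ := Finset.mem_Ico.1 hM
  obtain ⟨hc1, hc2⟩ := Finset.mem_Icc.1 hc
  have hM0 : 0 < M := pos_of_mem_blk hM
  have hM0' : (0 : ℝ) < M := by exact_mod_cast hM0
  have hl1 : (k : ℝ) ≤ Real.logb 2 M := by
    rw [Real.le_logb_iff_rpow_le (by norm_num) hM0', Real.rpow_natCast]
    exact_mod_cast hM1
  have hl2 : Real.logb 2 M ≤ k + 1 := by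
    rw [Real.logb_le_iff_le_rpow (by norm_num) hM0']
    have : (2 : ℝ) ^ ((k : ℝ) + 1) = 2 ^ (k + 1) := by
      rw [← Real.rpow_natCast 2 (k + 1)]
      push_cast
      rfl
    rw [this]
    exact_mod_cast hM2.le
  have hk' : (10 : ℝ) ^ 10 ≤ k := by exact_mod_cast hk
  have hz1 : (121 : ℝ) * k ≤ 100 * z := by
    have : 121 * k ≤ 100 * z := by omega
    exact_mod_cast this
  have hz2 : (100 : ℝ) * z ≤ 121 * k + 100 := by
    have : 100 * z ≤ 121 * k + 100 := by omega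
    exact_mod_cast this
  have hm1 : (100 : ℝ) * m ≤ k := by
    have : 100 * m ≤ k := by omega
    exact_mod_cast this
  have hc1' : (m : ℝ) ≤ c := by exact_mod_cast hc1
  have hc2' : (c : ℝ) ≤ 4 * m := by exact_mod_cast hc2
  have hm0 : (0 : ℝ) ≤ m := Nat.cast_nonneg m
  have hth := th_lt
  have hth' := th_gt
  have ht1 : 3 / 2 * (m : ℝ) ≤ th * m := mul_le_mul_of_nonneg_right hth'.le hm0
  have ht2 : th * (m : ℝ) ≤ 8 / 5 * m := mul_le_mul_of_nonneg_right hth.le hm0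
  have hmu : mu = 1 - th / 2 := rfl
  have hmu1 : 1 / 5 < mu := by rw [hmu]; linarith
  have hmu2 : mu < 1 / 4 := by rw [hmu]; linarith
  have hτ1 : (k : ℝ) / 10 ≤ τ := by rw [hτ]; linarith
  refine ⟨hτ1, fun hj => ?_⟩
  have hτ0 : 0 < τ := by linarith
  have h1 : 4 * τ ≤ τ / mu := by
    rw [le_div_iff₀ (by linarith)]
    nlinarith
  have h2 : τ / mu ≤ 5 * τ := by
    rw [div_le_iff₀ (by linarith)]
    nlinarith
  obtain ⟨h3, h4⟩ := abs_le.1 hj
  have h5 : (k : ℝ) ≤ 2 * (j + c) := by rw [hτ] at *; linarith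
  have h6 : 10 * ((j : ℝ) + c) ≤ 11 * k := by rw [hτ] at *; linarith
  have h5' : k ≤ 2 * (j + c) := by exact_mod_cast h5
  have h6' : 10 * (j + c) ≤ 11 * k := by exact_mod_cast h6
  exact Finset.mem_Icc.2 ⟨by omega, by omega⟩

open Classical in
/-- **PV1** -/
theorem pv1 (hPV1A : PV1AStatement) (hmix : MixStatement) (hjosc : JoscStatement)
    (hps : PsplitStatement) (hphi : PhiStatement) (hh : HoeffStatement)
    (hR : RenewStatement) : PV1Statement := by
  obtain ⟨C₄, hC, hj4⟩ := hjosc 4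
  obtain ⟨c₀, τ₀, hc₀, hren⟩ := hR
  refine ⟨c₀ / 2, 16 * C₄ * 200 ^ 4 + 8 * (Nat.factorial 10 * 4 ^ 10),
    max (10 ^ 10) (10 * ⌈|τ₀|⌉₊), by positivity, by positivity, ?_⟩
  intro d k z m E hk hE hz hm
  have hk10 : 10 ^ 10 ≤ k := (le_max_left _ _).trans hk
  have hkτ : 10 * ⌈|τ₀|⌉₊ ≤ k := (le_max_right _ _).trans hk
  have hk' : (10 : ℝ) ^ 10 ≤ k := by exact_mod_cast hk10
  have hk0 : (0 : ℝ) < k := by linarith
  have hτk : τ₀ ≤ k / 10 := by
    have h1 : (10 : ℝ) * ⌈|τ₀|⌉₊ ≤ k := by exact_mod_cast hkτ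
    have h2 := Nat.le_ceil |τ₀|
    have h3 := le_abs_self τ₀
    linarith
  -- the parameters
  obtain ⟨hD2, hD200⟩ := dev_small hk10
  set D := dev k with hD
  have hD200' : 200 * (D : ℝ) ≤ k := by exact_mod_cast hD200
  set I : Finset ℕ := Icc (k / 2) (11 * k / 10) with hI
  have hIn : I ⊆ range (19 * z / 20) := by
    intro i hi
    obtain ⟨h1, h2⟩ := Finset.mem_Icc.1 hi
    exact Finset.mem_range.2 (by omega)
  set x : ℝ := (2 : ℝ) ^ (-((k : ℝ) / 10)) with hx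
  have hx0 : 0 < x := Real.rpow_pos_of_pos (by norm_num) _
  have hx1 : x ≤ 1 / 20 := by
    have h1 : x ≤ (2 : ℝ) ^ (-(5 : ℝ)) :=
      Real.rpow_le_rpow_of_exponent_le (by norm_num) (by linarith)
    have h2 : (2 : ℝ) ^ (-(5 : ℝ)) = 1 / 32 := by
      rw [Real.rpow_neg (by norm_num)]
      norm_num
    rw [h2] at h1
    linarith
  have hm0 : 1 ≤ m := by omega
  have hmk : (k : ℝ) / 200 ≤ m := by
    have : k ≤ 200 * m := by omega
    have : (k : ℝ) ≤ 200 * m := by exact_mod_cast this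
    linarith
  have hIb : ∀ i ∈ I, k ≤ 2 * i + 1 ∧ 10 * i ≤ 11 * k := by
    intro i hi
    obtain ⟨h1, h2⟩ := Finset.mem_Icc.1 hi
    omega
  have h4m : ∀ i ∈ I, 4 * m ≤ i := by
    intro i hi
    have := hIb i hi
    omega
  have hth := th_lt
  have hth' := th_gt
  have htyp : ∀ i ∈ I, ∀ s ∈ typ i D, m ≤ s ∧ 3 ^ s ≤ 2 ^ k ∧ (3 : ℝ) ^ s ≤ x * 2 ^ k := by
    intro i hi s hs
    obtain ⟨h1, h2, h3⟩ := mem_typ hs
    obtain ⟨h4, h5⟩ := hIb i hi
    have h4' : (k : ℝ) ≤ 2 * i + 1 := by exact_mod_cast h4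
    have h5' : (10 : ℝ) * i ≤ 11 * k := by exact_mod_cast h5
    have hm1 : (100 : ℝ) * m ≤ k := by
      have : 100 * m ≤ k := by omega
      exact_mod_cast this
    refine ⟨?_, ?_, ?_⟩
    · have : (m : ℝ) ≤ s := by linarith
      exact_mod_cast this
    · refine three_pow_le ?_
      linarith
    · rw [three_pow, hx, ← Real.rpow_natCast 2 k, ← Real.rpow_add (by norm_num)]
      refine Real.rpow_le_rpow_of_exponent_le (by norm_num) ?_
      have := mul_le_mul_of_nonneg_right hth.le (Nat.cast_nonneg (α := ℝ) s)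
      linarith
  have h3m : 3 ^ m ≤ 2 ^ k := by
    refine three_pow_le ?_
    have : 2 * m ≤ k := by omega
    have : (2 : ℝ) * m ≤ k := by exact_mod_cast this
    have h1 : (0 : ℝ) ≤ m := Nat.cast_nonneg m
    linarith
  -- the visits at time `i`
  have hstep : ∀ i ∈ I, 2 ^ z * ∑ M ∈ E, 1 / (M : ℝ) *
      ∑ s ∈ Icc m i, wd z x i s M * (3 ^ m * Pc m i s (sg d * M)) ≤
      (((Ico (2 ^ z) (2 ^ (z + 1))).filter fun N => (T d)^[i] N ∈ E).card : ℝ) +
      2 ^ z * ((16 * C₄ * 200 ^ 4 + 8 * (Nat.factorial 10 * 4 ^ 10)) / (k : ℝ) ^ 2) := by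
    intro i hi
    obtain ⟨h4, h5⟩ := hIb i hi
    have h1 := hPV1A d k z i D E x hE hx0 (by linarith) fun s hs => (htyp i hi s hs).2.2
    have h2 := errB hmix hC hj4 (d := d) (z := z) (x := x) hE hm0
      (fun s hs => ⟨(htyp i hi s hs).1, (htyp i hi s hs).2.1⟩)
    have h3 := errC hphi hh (d := d) (z := z) (x := x) (D := D) (i := i) hE h3m
      (fun s hs => (htyp i hi s hs).1)
    have e1 : ∀ M : ℕ, (∑ s ∈ typ i D,
        (if z + 2 * x ≤ Real.logb 2 M + i - th * s ∧ Real.logb 2 M + i - th * s ≤ z + 1 - 2 * x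
          then 3 ^ s * Pc s i s (sg d * M) else 0)) =
        ∑ s ∈ typ i D, wd z x i s M * (3 ^ s * Pc s i s (sg d * M)) := by
      intro M
      refine Finset.sum_congr rfl fun s _ => ?_
      unfold wd
      split_ifs
      · rw [one_mul]
      · rw [zero_mul]
    simp_rw [e1] at h1
    have hb1 : ((i : ℝ) + 1) * (2 * (i * (C₄ / (m : ℝ) ^ 4))) ≤ 16 * C₄ * 200 ^ 4 / (k : ℝ) ^ 2 := by
      have hi1 : (i : ℝ) + 1 ≤ 2 * k := by
        have : i + 1 ≤ 2 * k := by omega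
        exact_mod_cast this
      have hi2 : (i : ℝ) ≤ 2 * k := by linarith
      have hmz : C₄ / (m : ℝ) ^ 4 ≤ C₄ * 200 ^ 4 / (k : ℝ) ^ 4 := by
        have h1 : ((k : ℝ) / 200) ^ 4 ≤ (m : ℝ) ^ 4 := pow_le_pow_left₀ (by positivity) hmk 4
        have h2 : C₄ / (m : ℝ) ^ 4 ≤ C₄ / ((k : ℝ) / 200) ^ 4 :=
          div_le_div_of_nonneg_left hC.le (by positivity) h1
        refine h2.trans (le_of_eq ?_)
        rw [div_pow]
        field_simp
      calc ((i : ℝ) + 1) * (2 * (i * (C₄ / (m : ℝ) ^ 4))) ≤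
          (2 * k) * (2 * ((2 * k) * (C₄ * 200 ^ 4 / (k : ℝ) ^ 4))) := by gcongr
        _ = 8 * C₄ * 200 ^ 4 / (k : ℝ) ^ 2 := by
          field_simp
          norm_num
        _ ≤ 16 * C₄ * 200 ^ 4 / (k : ℝ) ^ 2 := by
          gcongr
          norm_num
    have hb2 : 4 * Real.exp (-((D : ℝ) ^ 2 / (2 * i))) ≤
        8 * (Nat.factorial 10 * 4 ^ 10) / (k : ℝ) ^ 2 := by
      have h6 := exp_bound (K := k) (i := i) (by omega) (by omega) (by omega)
      rw [← hD] at h6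
      rw [le_div_iff₀ (by positivity)]
      have h7 : (0 : ℝ) < Nat.factorial 10 * 4 ^ 10 := by positivity
      linarith
    have h8 : ∑ M ∈ E, 1 / (M : ℝ) *
        ∑ s ∈ Icc m i, wd z x i s M * (3 ^ m * Pc m i s (sg d * M)) ≤
        ∑ M ∈ E, 1 / (M : ℝ) *
          ∑ s ∈ typ i D, wd z x i s M * (3 ^ s * Pc s i s (sg d * M)) +
        (16 * C₄ * 200 ^ 4 + 8 * (Nat.factorial 10 * 4 ^ 10)) / (k : ℝ) ^ 2 := by
      rw [add_div]
      linarith
    have h9 : (0 : ℝ) < 2 ^ z := by positivity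
    have h10 := mul_le_mul_of_nonneg_left h8 h9.le
    rw [mul_add] at h10
    linarith
  -- the main term
  have hmain := main_term hps (d := d) (E := E) (I := I) (k := k) (m := m) (z := z) (x := x)
    (c₀ := c₀) hE h4m hc₀.le fun M hM c hc => by
      obtain ⟨hτ1, -⟩ := range_j (j := 0) hk10 (hE hM) hz hm hc rfl
      have h1 := hren _ (2 * x) (hτk.trans hτ1) (by linarith) (by linarith)
      refine renew_shift h1 (Finset.mem_Icc.1 hc).1 rfl rfl fun j hj => ?_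
      exact (range_j hk10 (hE hM) hz hm hc rfl).2 (Finset.mem_filter.1 hj).2
  have hsum := Finset.sum_le_sum hstep
  rw [← Finset.mul_sum, Finset.sum_add_distrib, Finset.sum_const, nsmul_eq_mul] at hsum
  have hvis := visits d E I (2 ^ z) (2 ^ (z + 1)) (19 * z / 20) hIn
  have hcard : (I.card : ℝ) ≤ k := by
    have : I.card ≤ k := by
      rw [hI, Nat.card_Icc]
      omega
    exact_mod_cast this
  set Q : ℝ := 16 * C₄ * 200 ^ 4 + 8 * (Nat.factorial 10 * 4 ^ 10) with hQ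
  have hQ0 : 0 < Q := by positivity
  have h2z : (0 : ℝ) < 2 ^ z := by positivity
  have h11 : (I.card : ℝ) * (2 ^ z * (Q / (k : ℝ) ^ 2)) ≤ 2 ^ z * (Q / k) := by
    calc (I.card : ℝ) * (2 ^ z * (Q / (k : ℝ) ^ 2)) ≤ k * (2 ^ z * (Q / (k : ℝ) ^ 2)) :=
          mul_le_mul_of_nonneg_right hcard (by positivity)
      _ = 2 ^ z * (Q / k) := by field_simp
  have h12 := mul_le_mul_of_nonneg_left hmain h2z.le
  rw [mul_sub]
  linarith

end Pool.Agent.Lib.MP_edb5be_nt.ND.H72
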