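import Pool.Agent.Lib.MP_edb5be_nt.ND.Iface2

/-! # TAILP: the lower tail of the density -/

set_option autoImplicit false

namespace Pool.Agent.Lib.MP_edb5be_nt.ND.H72

open Finset Pool.Agent.Lib.MP_0a5adf_nt.TP

/-! ### Sums over residues -/

theorem sum_zmod (q : ℕ) [NeZero q] (g : ZMod q → ℝ) :
    ∑ t ∈ range q, g (t : ZMod q) = ∑ X : ZMod q, g X := by
  refine Finset.sum_nbij' (fun t => (t : ZMod q)) (fun X => X.val) ?_ ?_ ?_ ?_ ?_
  · intro t _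
    exact mem_univ _
  · intro X _
    exact mem_range.2 (ZMod.val_lt X)
  · intro t ht
    exact ZMod.val_cast_of_lt (mem_range.1 ht)
  · intro X _
    exact ZMod.natCast_zmod_val X
  · intro t _
    rfl

theorem per_eq {q : ℕ} {F : ℤ → ℝ} (hF : ∀ x, F (x + q) = F x) {x y : ℤ}
    (h : (x : ZMod q) = (y : ZMod q)) : F x = F y := by
  have hP : Function.Periodic F (q : ℤ) := hF
  rw [ZMod.intCast_eq_intCast_iff_dvd_sub] at h
  obtain ⟨k, hk⟩ := h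
  have h2 : y = x + k * q := by linarith
  rw [h2]
  exact (hP.int_mul k x).symm

theorem sum_affine (q : ℕ) [NeZero q] (F : ℤ → ℝ) (hF : ∀ x, F (x + q) = F x) (a u : ℤ)
    (ha : IsUnit (a : ZMod q)) :
    ∑ t ∈ range q, F (u + a * t) = ∑ t ∈ range q, F t := by
  set Fz : ZMod q → ℝ := fun X => F (X.val : ℤ) with hFz
  have h1 : ∀ x : ℤ, F x = Fz (x : ZMod q) := by
    intro x
    apply per_eq hF
    rw [Int.cast_natCast, ZMod.natCast_zmod_val]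
  have h2 : ∑ t ∈ range q, F (u + a * t) =
      ∑ t ∈ range q, (fun X : ZMod q => Fz (u + a * X)) (t : ZMod q) := by
    refine sum_congr rfl fun t _ => ?_
    rw [h1]
    push_cast
    rfl
  have h3 : ∑ t ∈ range q, F t = ∑ t ∈ range q, Fz (t : ZMod q) := by
    refine sum_congr rfl fun t _ => ?_
    rw [h1]
    push_cast
    rfl
  rw [h2, h3, sum_zmod q (fun X : ZMod q => Fz (u + a * X)), sum_zmod q Fz]
  obtain ⟨w, hw⟩ := ha
  have hb : Function.Bijective fun X : ZMod q => (u : ZMod q) + a * X := by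
    rw [← hw]
    exact (Equiv.addLeft (u : ZMod q)).bijective.comp (Units.mulLeft_bijective w)
  exact hb.sum_comp Fz

theorem sum_mul_range (a b : ℕ) (F : ℕ → ℝ) :
    ∑ x ∈ range (a * b), F x = ∑ r ∈ range a, ∑ t ∈ range b, F (r + a * t) := by
  rw [sum_comm]
  induction b with
  | zero => simp
  | succ b ih =>
    rw [Nat.mul_succ, Finset.sum_range_add, ih, sum_range_succ]
    congr 1
    refine sum_congr rfl fun r _ => ?_
    rw [add_comm]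

/-! ### Values of the density -/

/-- Indicator. -/
noncomputable def ind (P : Prop) : ℝ := by
  classical exact if P then 1 else 0

theorem ind_true {P : Prop} (h : P) : ind P = 1 := by
  unfold ind
  rw [if_pos h]

theorem ind_false {P : Prop} (h : ¬ P) : ind P = 0 := by
  unfold ind
  rw [if_neg h]

theorem ind_nonneg (P : Prop) : 0 ≤ ind P := by
  by_cases h : P
  · rw [ind_true h]; exact zero_le_one
  · rw [ind_false h]

theorem ind_le_one (P : Prop) : ind P ≤ 1 := by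
  by_cases h : P
  · rw [ind_true h]
  · rw [ind_false h]; exact zero_le_one

theorem FF_per {m : ℕ} (hA : FFAStatement) {x y : ℤ} (h : ((3 : ℤ) ^ m) ∣ x - y) :
    FF m x = FF m y := by
  have hF : ∀ x, FF m (x + ((3 ^ m : ℕ) : ℤ)) = FF m x := by
    intro x
    have h1 := (hA.1 m x).2.1
    push_cast
    exact h1
  apply per_eq (q := 3 ^ m) hF
  rw [ZMod.intCast_eq_intCast_iff_dvd_sub]
  push_cast
  rw [← neg_sub, dvd_neg]
  exact h

theorem FF_le {n : ℕ} (hA : FFAStatement) (x : ℤ) : FF n x ≤ 3 ^ n := by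
  have h3 : (0 : ℤ) < 3 ^ n := by positivity
  set r : ℕ := (x % 3 ^ n).toNat with hr
  have h1 : ((r : ℕ) : ℤ) = x % 3 ^ n := Int.toNat_of_nonneg (Int.emod_nonneg _ h3.ne')
  have h2 : FF n x = FF n (r : ℤ) := by
    apply FF_per hA
    rw [h1]
    exact Int.dvd_self_sub_emod
  have h4 : r ∈ range (3 ^ n) := by
    rw [mem_range]
    have := Int.emod_lt_of_pos x h3
    rw [← h1] at this
    exact_mod_cast this
  rw [h2, ← hA.2.1 n]
  exact single_le_sum (f := fun x : ℕ => FF n x) (fun i _ => (hA.1 n i).1) h4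

/-- (U): the density is at least `1 / 4` with positive probability. -/
theorem lowerU (hA : FFAStatement) : ∃ p : ℝ, 0 < p ∧ p ≤ 1 ∧ ∃ m₁ : ℕ, ∀ m : ℕ, m₁ ≤ m →
    p * 3 ^ m ≤ ∑ x ∈ range (3 ^ m), ind (1 / 4 ≤ FF m x) := by
  obtain ⟨C, hC, hosc⟩ := hA.2.2.2
  obtain ⟨n₀, hn₀⟩ := exists_nat_ge (8 * C)
  have hn₁ : (0 : ℝ) < n₀ := lt_of_lt_of_le (by linarith) hn₀
  have hn₂ : 1 ≤ n₀ := by exact_mod_cast Nat.pos_of_ne_zero (by rintro rfl; simp at hn₁)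
  have hK : (1 : ℝ) ≤ 3 ^ n₀ := one_le_pow₀ (by norm_num)
  refine ⟨1 / (4 * 3 ^ n₀), by positivity, ?_, n₀, fun m hm => ?_⟩
  · rw [div_le_one (by positivity)]
    linarith
  have h1 := hosc n₀ m hn₂ hm
  have h2 : C / n₀ ≤ 1 / 8 := by
    rw [div_le_iff₀ hn₁]
    linarith
  have h3 : ∑ x ∈ range (3 ^ m), |FF m x - FF n₀ x| ≤ 1 / 8 * 3 ^ m :=
    h1.trans (mul_le_mul_of_nonneg_right h2 (by positivity))
  have h4 : ∀ x ∈ range (3 ^ m), FF m x ≤ 1 / 4 + 2 * 3 ^ n₀ * ind (1 / 4 ≤ FF m x) +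
      2 * |FF m x - FF n₀ x| := by
    intro x _
    have ha := abs_nonneg (FF m x - FF n₀ x)
    by_cases h : 1 / 4 ≤ FF m x
    · rw [ind_true h]
      have hb := le_abs_self (FF m x - FF n₀ x)
      have hc := FF_le (n := n₀) hA x
      nlinarith
    · rw [ind_false h]
      push Not at h
      linarith
  have h5 := sum_le_sum h4
  rw [hA.2.1 m, sum_add_distrib, sum_add_distrib, ← mul_sum, ← mul_sum, sum_const, card_range,
    nsmul_eq_mul] at h5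
  push_cast at h5
  have h6 : (3 : ℝ) ^ m / 2 ≤ 2 * 3 ^ n₀ * ∑ x ∈ range (3 ^ m), ind (1 / 4 ≤ FF m x) := by
    linarith
  rw [div_mul_eq_mul_div, one_mul, div_le_iff₀ (by positivity)]
  linarith

/-- Mass of the residues prime to `3` with small density. -/
noncomputable def AA (m : ℕ) (δ : ℝ) : ℝ :=
  ∑ x ∈ range (3 ^ m), ind (¬ (3 : ℤ) ∣ (x : ℤ) ∧ FF m x < δ)

theorem AA_mono (m : ℕ) {δ δ' : ℝ} (h : δ ≤ δ') : AA m δ ≤ AA m δ' := by
  refine sum_le_sum fun x _ => ?_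
  by_cases h1 : ¬ (3 : ℤ) ∣ (x : ℤ) ∧ FF m x < δ
  · rw [ind_true h1, ind_true ⟨h1.1, h1.2.trans_le h⟩]
  · rw [ind_false h1]
    exact ind_nonneg _

theorem AA_le (m : ℕ) (δ : ℝ) : AA m δ ≤ 3 ^ m := by
  have h : AA m δ ≤ ∑ x ∈ range (3 ^ m), (1 : ℝ) := sum_le_sum fun x _ => ind_le_one _
  rw [sum_const, card_range, nsmul_eq_mul, mul_one] at h
  exact_mod_cast h

/-- One class. -/
theorem class_bound (hA : FFAStatement) (hS : SelfStatement) {p : ℝ} {m₁ : ℕ}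
    (hp : ∀ m : ℕ, m₁ ≤ m → p * 3 ^ m ≤ ∑ x ∈ range (3 ^ m), ind (1 / 4 ≤ FF m x)) (N : ℕ) :
    ∃ κ : ℝ, 0 < κ ∧ ∀ (m : ℕ) (b : ℕ), m₁ ≤ m → ¬ (3 : ℤ) ∣ (b : ℤ) →
      ∑ t ∈ range (3 ^ m), ind (FF (m + N) ((b : ℤ) + 3 ^ N * t) < κ) ≤ (1 - p) * 3 ^ m := by
  obtain ⟨K, hK⟩ := hS N
  refine ⟨3 ^ N / 2 ^ K / 4, by positivity, fun m b hm hb => ?_⟩
  obtain ⟨c, hc, r, hr, hy⟩ := hK b hb
  obtain ⟨u, hu⟩ := hr
  have h3N : (3 : ℤ) ^ N ≠ 0 := by positivity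
  have h1 : ∀ t : ℕ, 3 ^ N / 2 ^ c * FF m (u + 2 ^ c * t) ≤
      FF (m + N) ((b : ℤ) + 3 ^ N * t) := by
    intro t
    have h2 := hy m ((b : ℤ) + 3 ^ N * t) ⟨t, by ring⟩
    have h3 : (2 ^ c * ((b : ℤ) + 3 ^ N * t) - r) / 3 ^ N = u + 2 ^ c * t := by
      apply Int.ediv_eq_of_eq_mul_right h3N
      linear_combination hu
    rw [h3] at h2
    exact h2
  have h4 : ∀ t ∈ range (3 ^ m), ind (FF (m + N) ((b : ℤ) + 3 ^ N * t) < 3 ^ N / 2 ^ K / 4) ≤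
      1 - ind (1 / 4 ≤ FF m (u + 2 ^ c * t)) := by
    intro t _
    by_cases h : 1 / 4 ≤ FF m (u + 2 ^ c * t)
    · rw [ind_true h, ind_false, sub_self]
      rw [not_lt]
      refine le_trans ?_ (h1 t)
      have h5 : (3 : ℝ) ^ N / 2 ^ K ≤ 3 ^ N / 2 ^ c :=
        div_le_div_of_nonneg_left (by positivity) (by positivity)
          (pow_le_pow_right₀ (by norm_num) hc)
      have h6 : (0 : ℝ) ≤ 3 ^ N / 2 ^ K := by positivity
      calc (3 : ℝ) ^ N / 2 ^ K / 4 = 3 ^ N / 2 ^ K * (1 / 4) := by ring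
        _ ≤ 3 ^ N / 2 ^ c * FF m (u + 2 ^ c * t) := mul_le_mul h5 h (by norm_num)
            (h6.trans h5)
    · rw [ind_false h, sub_zero]
      exact ind_le_one _
  refine (sum_le_sum h4).trans ?_
  rw [sum_sub_distrib, sum_const, card_range, nsmul_eq_mul, mul_one]
  have h7 : ∑ t ∈ range (3 ^ m), ind (1 / 4 ≤ FF m (u + 2 ^ c * t)) =
      ∑ t ∈ range (3 ^ m), ind (1 / 4 ≤ FF m t) := by
    have : NeZero (3 ^ m) := ⟨by positivity⟩
    refine sum_affine (3 ^ m) (fun x => ind (1 / 4 ≤ FF m x)) ?_ (2 ^ c) u ?_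
    · intro x
      have h8 : FF m (x + ((3 ^ m : ℕ) : ℤ)) = FF m x := by
        apply FF_per hA
        push_cast
        exact ⟨1, by ring⟩
      rw [h8]
    · push_cast
      apply IsUnit.pow
      have h9 : ((2 : ℕ) : ZMod (3 ^ m)) = 2 := by norm_num
      rw [← h9, ZMod.isUnit_iff_coprime]
      exact Nat.Coprime.pow_right m (by norm_num)
  rw [h7]
  have h10 := hp m hm
  push_cast
  linarith

/-- (C): contraction. -/
theorem contraction (hA : FFAStatement) (hS : SelfStatement) {p : ℝ} {m₁ : ℕ} (hp0 : 0 < p)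
    (hp1 : p ≤ 1)
    (hp : ∀ m : ℕ, m₁ ≤ m → p * 3 ^ m ≤ ∑ x ∈ range (3 ^ m), ind (1 / 4 ≤ FF m x))
    {q δ₁ : ℝ} {m₂ : ℕ} (hq : 0 < q) (hδ : 0 < δ₁) (h : ∀ m, m₂ ≤ m → AA m δ₁ ≤ q * 3 ^ m) :
    ∃ δ₂ : ℝ, 0 < δ₂ ∧ ∃ m₃ : ℕ, ∀ m, m₃ ≤ m → AA m δ₂ ≤ (1 - p / 2) * q * 3 ^ m := by
  obtain ⟨C, hC, hosc⟩ := hA.2.2.2
  obtain ⟨N₀, hN₀⟩ := exists_nat_ge (4 * C / δ₁ / (p * q / 8))
  set N := max (max m₂ N₀) 1 with hN
  have hN1 : 1 ≤ N := le_max_right _ _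
  have hNm : m₂ ≤ N := (le_max_left _ _).trans (le_max_left _ _)
  have hNr : (0 : ℝ) < N := by exact_mod_cast hN1
  have hθ : 4 / δ₁ * (C / N) ≤ p * q / 8 := by
    have h1 : (N₀ : ℝ) ≤ N := by exact_mod_cast (le_max_right m₂ N₀).trans (le_max_left _ 1)
    have h2 : 4 * C / δ₁ / (p * q / 8) ≤ N := hN₀.trans h1
    rw [div_le_iff₀ (by positivity)] at h2
    have h3 : 4 / δ₁ * (C / N) = 4 * C / δ₁ / N := by field_simp
    rw [h3, div_le_iff₀ hNr]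
    linarith
  obtain ⟨κ, hκ, hcl⟩ := class_bound hA hS hp N
  refine ⟨min κ (δ₁ / 4), lt_min hκ (by linarith), m₁ + N, fun m' hm' => ?_⟩
  obtain ⟨m, rfl⟩ : ∃ m, m' = m + N := ⟨m' - N, by omega⟩
  have hm : m₁ ≤ m := by omega
  have hNm' : N ≤ m + N := by omega
  set δ₂ := min κ (δ₁ / 4) with hδ₂
  have hNb : ∀ b t : ℕ, FF N ((b + 3 ^ N * t : ℕ) : ℤ) = FF N (b : ℤ) := by
    intro b t
    apply FF_per hA
    push_cast
    exact ⟨t, by ring⟩
  have hdv : ∀ b t : ℕ, (3 : ℤ) ∣ (b : ℤ) → (3 : ℤ) ∣ ((b + 3 ^ N * t : ℕ) : ℤ) := by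
    intro b t hb
    push_cast
    exact dvd_add hb (Dvd.dvd.mul_right (dvd_pow_self 3 (by omega)) _)
  have hpt : ∀ b ∈ range (3 ^ N), ∑ t ∈ range (3 ^ m),
      ind (¬ (3 : ℤ) ∣ ((b + 3 ^ N * t : ℕ) : ℤ) ∧ FF (m + N) ((b + 3 ^ N * t : ℕ) : ℤ) < δ₂) ≤
      (1 - p) * 3 ^ m * ind (¬ (3 : ℤ) ∣ (b : ℤ) ∧ FF N b < δ₁ / 2) +
      ∑ t ∈ range (3 ^ m), 4 / δ₁ *
        |FF (m + N) ((b + 3 ^ N * t : ℕ) : ℤ) - FF N ((b + 3 ^ N * t : ℕ) : ℤ)| := by
    intro b _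
    have hnn : 0 ≤ ∑ t ∈ range (3 ^ m), 4 / δ₁ *
        |FF (m + N) ((b + 3 ^ N * t : ℕ) : ℤ) - FF N ((b + 3 ^ N * t : ℕ) : ℤ)| :=
      sum_nonneg fun t _ => by positivity
    by_cases hb : (3 : ℤ) ∣ (b : ℤ)
    · have h0 : ∑ t ∈ range (3 ^ m), ind (¬ (3 : ℤ) ∣ ((b + 3 ^ N * t : ℕ) : ℤ) ∧
          FF (m + N) ((b + 3 ^ N * t : ℕ) : ℤ) < δ₂) = 0 :=
        sum_eq_zero fun t _ => ind_false fun h => h.1 (hdv b t hb)
      rw [h0, ind_false fun h => h.1 hb, mul_zero, zero_add]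
      exact hnn
    by_cases hQ : FF N b < δ₁ / 2
    · rw [ind_true ⟨hb, hQ⟩, mul_one]
      have h1 := hcl m b hm hb
      have h2 : ∑ t ∈ range (3 ^ m), ind (¬ (3 : ℤ) ∣ ((b + 3 ^ N * t : ℕ) : ℤ) ∧
          FF (m + N) ((b + 3 ^ N * t : ℕ) : ℤ) < δ₂) ≤
          ∑ t ∈ range (3 ^ m), ind (FF (m + N) ((b : ℤ) + 3 ^ N * t) < κ) := by
        refine sum_le_sum fun t _ => ?_
        by_cases h3 : ¬ (3 : ℤ) ∣ ((b + 3 ^ N * t : ℕ) : ℤ) ∧
          FF (m + N) ((b + 3 ^ N * t : ℕ) : ℤ) < δ₂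
        · rw [ind_true h3, ind_true]
          have h4 := h3.2.trans_le (min_le_left _ _)
          push_cast at h4
          exact h4
        · rw [ind_false h3]
          exact ind_nonneg _
      linarith
    · rw [ind_false fun h => hQ h.2, mul_zero, zero_add]
      refine sum_le_sum fun t _ => ?_
      by_cases h3 : ¬ (3 : ℤ) ∣ ((b + 3 ^ N * t : ℕ) : ℤ) ∧
        FF (m + N) ((b + 3 ^ N * t : ℕ) : ℤ) < δ₂
      · rw [ind_true h3]
        push Not at hQ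
        have h4 := h3.2.trans_le (min_le_right _ _)
        have h5 := hNb b t
        have h6 : δ₁ / 4 ≤ |FF (m + N) ((b + 3 ^ N * t : ℕ) : ℤ) -
            FF N ((b + 3 ^ N * t : ℕ) : ℤ)| := by
          rw [abs_sub_comm]
          refine le_trans ?_ (le_abs_self _)
          rw [h5]
          linarith
        calc (1 : ℝ) = 4 / δ₁ * (δ₁ / 4) := by field_simp
          _ ≤ _ := mul_le_mul_of_nonneg_left h6 (by positivity)
      · rw [ind_false h3]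
        positivity
  have hsplit : ∀ F : ℕ → ℝ, ∑ x ∈ range (3 ^ (m + N)), F x =
      ∑ b ∈ range (3 ^ N), ∑ t ∈ range (3 ^ m), F (b + 3 ^ N * t) := by
    intro F
    rw [← sum_mul_range, ← pow_add, add_comm m N]
  have h5 : AA (m + N) δ₂ ≤ (1 - p) * 3 ^ m * AA N (δ₁ / 2) +
      4 / δ₁ * ∑ x ∈ range (3 ^ (m + N)), |FF (m + N) x - FF N x| := by
    unfold AA
    rw [hsplit (fun x => ind (¬ (3 : ℤ) ∣ (x : ℤ) ∧ FF (m + N) x < δ₂)),
      hsplit (fun x => |FF (m + N) x - FF N x|), mul_sum, mul_sum, ← sum_add_distrib]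
    refine sum_le_sum fun b hb => ?_
    rw [mul_sum]
    exact hpt b hb
  have h6 : AA N (δ₁ / 2) ≤ q * 3 ^ N := (AA_mono N (by linarith)).trans (h N hNm)
  have h7 := hosc N (m + N) hN1 hNm'
  have h8 : 4 / δ₁ * ∑ x ∈ range (3 ^ (m + N)), |FF (m + N) x - FF N x| ≤
      p * q / 8 * 3 ^ (m + N) := by
    calc 4 / δ₁ * ∑ x ∈ range (3 ^ (m + N)), |FF (m + N) x - FF N x|
        ≤ 4 / δ₁ * (C / N * 3 ^ (m + N)) := mul_le_mul_of_nonneg_left h7 (by positivity)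
      _ = 4 / δ₁ * (C / N) * 3 ^ (m + N) := by ring
      _ ≤ _ := mul_le_mul_of_nonneg_right hθ (by positivity)
  have h9 : (1 - p) * 3 ^ m * AA N (δ₁ / 2) ≤ (1 - p) * q * 3 ^ (m + N) := by
    calc (1 - p) * 3 ^ m * AA N (δ₁ / 2) ≤ (1 - p) * 3 ^ m * (q * 3 ^ N) :=
          mul_le_mul_of_nonneg_left h6 (mul_nonneg (by linarith) (by positivity))
      _ = _ := by rw [pow_add]; ring
  have h10 : (0 : ℝ) < 3 ^ (m + N) := by positivity
  have h11 : (0 : ℝ) < p * q * 3 ^ (m + N) := by positivity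
  nlinarith

/-- Iteration. -/
theorem iterate (hA : FFAStatement) (hS : SelfStatement) {p : ℝ} {m₁ : ℕ} (hp0 : 0 < p)
    (hp1 : p ≤ 1)
    (hp : ∀ m : ℕ, m₁ ≤ m → p * 3 ^ m ≤ ∑ x ∈ range (3 ^ m), ind (1 / 4 ≤ FF m x)) (k : ℕ) :
    ∃ δ : ℝ, 0 < δ ∧ ∃ m₀ : ℕ, ∀ m, m₀ ≤ m → AA m δ ≤ (1 - p / 2) ^ k * 3 ^ m := by
  induction k with
  | zero =>
    refine ⟨1, one_pos, 0, fun m _ => ?_⟩
    rw [pow_zero, one_mul]
    exact AA_le m 1
  | succ k ih =>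
    obtain ⟨δ, hδ, m₀, h⟩ := ih
    have hq : (0 : ℝ) < (1 - p / 2) ^ k := pow_pos (by linarith) k
    obtain ⟨δ₂, h2, m₃, h3⟩ := contraction hA hS hp0 hp1 hp hq hδ h
    refine ⟨δ₂, h2, m₃, fun m hm => ?_⟩
    rw [pow_succ, mul_comm ((1 - p / 2) ^ k)]
    exact h3 m hm

theorem Phi_per (m : ℕ) (x y : ℤ) (h : (x : ZMod (3 ^ m)) = y) : Phi m x = Phi m y := by
  unfold Phi
  rw [h]

open Classical in
/-- TAILP, with natural residues. -/
theorem tailp_nat (hA : FFAStatement) (hS : SelfStatement) :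
    ∀ ε : ℝ, 0 < ε → ∃ δ : ℝ, 0 < δ ∧ ∃ m₀ : ℕ, ∀ (d : Bool) (m : ℕ), m₀ ≤ m →
      (((range (3 ^ m)).filter fun x : ℕ => ¬ 3 ∣ x ∧ Phi m (sg d * x) < δ).card : ℝ) ≤
        ε * 3 ^ m := by
  intro ε hε
  obtain ⟨p, hp0, hp1, m₁, hp⟩ := lowerU hA
  obtain ⟨k, hk⟩ := exists_pow_lt_of_lt_one (show (0 : ℝ) < ε / 2 by linarith)
    (show (1 - p / 2 : ℝ) < 1 by linarith)
  obtain ⟨δ, hδ, m₀, h0⟩ := iterate hA hS hp0 hp1 hp k
  obtain ⟨m₅, hm₅⟩ := exists_pow_lt_of_lt_one (show (0 : ℝ) < ε * δ / 4 by positivity)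
    (show (3 / 5 : ℝ) < 1 by norm_num)
  refine ⟨δ / 2, by linarith, max (max m₀ m₅) 1, fun d m hm => ?_⟩
  have hm0 : m₀ ≤ m := ((le_max_left _ _).trans (le_max_left _ _)).trans hm
  have hm5 : m₅ ≤ m := ((le_max_right _ _).trans (le_max_left _ _)).trans hm
  have hm1 : 1 ≤ m := (le_max_right _ _).trans hm
  have : NeZero (3 ^ m) := ⟨by positivity⟩
  -- the count as a sum of indicators
  rw [card_filter]
  push_cast
  have h1 : ∀ x ∈ range (3 ^ m), (if ¬ 3 ∣ x ∧ Phi m (sg d * x) < δ / 2 then (1 : ℝ) else 0) =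
      ind (¬ (3 : ℤ) ∣ sg d * (x : ℤ) ∧ Phi m (sg d * x) < δ / 2) := by
    intro x _
    have hiff : (3 : ℤ) ∣ sg d * (x : ℤ) ↔ 3 ∣ x := by
      have h2 : (3 : ℤ) ∣ (x : ℤ) ↔ 3 ∣ x := by
        have := Int.natCast_dvd_natCast (m := 3) (n := x)
        exact_mod_cast this
      cases d
      · rw [show sg false = -1 from rfl, neg_one_mul, dvd_neg, h2]
      · rw [show sg true = 1 from rfl, one_mul, h2]
    by_cases h3 : ¬ 3 ∣ x ∧ Phi m (sg d * x) < δ / 2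
    · rw [if_pos h3, ind_true ⟨fun h => h3.1 (hiff.1 h), h3.2⟩]
    · rw [if_neg h3, ind_false fun h => h3 ⟨fun h' => h.1 (hiff.2 h'), h.2⟩]
  rw [sum_congr rfl h1]
  -- remove the sign
  have h2 : ∑ x ∈ range (3 ^ m), ind (¬ (3 : ℤ) ∣ sg d * (x : ℤ) ∧ Phi m (sg d * x) < δ / 2) =
      ∑ x ∈ range (3 ^ m), ind (¬ (3 : ℤ) ∣ (x : ℤ) ∧ Phi m x < δ / 2) := by
    have h3 := sum_affine (3 ^ m) (fun x => ind (¬ (3 : ℤ) ∣ x ∧ Phi m x < δ / 2)) ?_ (sg d) 0 ?_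
    · simpa using h3
    · intro x
      have h4 : Phi m (x + ((3 ^ m : ℕ) : ℤ)) = Phi m x := by
        apply Phi_per
        push_cast
        have h5 : ((3 : ZMod (3 ^ m)) ^ m) = 0 := by
          have := ZMod.natCast_self (3 ^ m)
          push_cast at this
          exact this
        rw [h5, add_zero]
      have h5 : (3 : ℤ) ∣ x + ((3 ^ m : ℕ) : ℤ) ↔ (3 : ℤ) ∣ x := by
        push_cast
        exact (Int.dvd_add_left (dvd_pow_self 3 (by omega)))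
      simp only [h4, h5]
    · cases d
      · rw [show sg false = -1 from rfl]
        push_cast
        exact isUnit_one.neg
      · rw [show sg true = 1 from rfl]
        push_cast
        exact isUnit_one
  rw [h2]
  have h3 : ∀ x ∈ range (3 ^ m), ind (¬ (3 : ℤ) ∣ (x : ℤ) ∧ Phi m x < δ / 2) ≤
      ind (¬ (3 : ℤ) ∣ (x : ℤ) ∧ FF m x < δ) + 2 / δ * (FF m x - Phi m x) := by
    intro x _
    have h4 := (hA.1 m x).2.2
    have h5 : 0 ≤ 2 / δ * (FF m x - Phi m x) := mul_nonneg (by positivity) (by linarith)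
    by_cases h6 : ¬ (3 : ℤ) ∣ (x : ℤ) ∧ Phi m x < δ / 2
    · rw [ind_true h6]
      by_cases h7 : FF m x < δ
      · rw [ind_true ⟨h6.1, h7⟩]
        linarith
      · push Not at h7
        have h8 : 1 ≤ 2 / δ * (FF m x - Phi m x) := by
          calc (1 : ℝ) = 2 / δ * (δ / 2) := by field_simp
            _ ≤ _ := mul_le_mul_of_nonneg_left (by linarith [h6.2]) (by positivity)
        have h9 := ind_nonneg (¬ (3 : ℤ) ∣ (x : ℤ) ∧ FF m x < δ)
        linarith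
    · rw [ind_false h6]
      have h9 := ind_nonneg (¬ (3 : ℤ) ∣ (x : ℤ) ∧ FF m x < δ)
      linarith
  refine (sum_le_sum h3).trans ?_
  rw [sum_add_distrib, ← mul_sum]
  have h4 := h0 m hm0
  have h5 := hA.2.2.1 m
  have h6 : 2 / δ * ∑ x ∈ range (3 ^ m), (FF m x - Phi m x) ≤ ε / 2 * 3 ^ m := by
    calc 2 / δ * ∑ x ∈ range (3 ^ m), (FF m x - Phi m x)
        ≤ 2 / δ * (3 ^ m * (3 / 5 : ℝ) ^ m) := mul_le_mul_of_nonneg_left h5 (by positivity)
      _ = 2 / δ * (3 / 5 : ℝ) ^ m * 3 ^ m := by ring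
      _ ≤ 2 / δ * (ε * δ / 4) * 3 ^ m := by
          refine mul_le_mul_of_nonneg_right (mul_le_mul_of_nonneg_left ?_ (by positivity))
            (by positivity)
          exact (pow_le_pow_of_le_one (by norm_num) (by norm_num) hm5).trans hm₅.le
      _ = ε / 2 * 3 ^ m := by field_simp; ring
  have h7 : (1 - p / 2) ^ k * (3 : ℝ) ^ m ≤ ε / 2 * 3 ^ m :=
    mul_le_mul_of_nonneg_right hk.le (by positivity)
  unfold AA at h4
  linarith

/-- TAILP. -/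
theorem tailp (hA : FFAStatement) (hS : SelfStatement) : TailPStatement := by
  intro ε hε
  obtain ⟨δ, hδ, m₀, h⟩ := tailp_nat hA hS ε hε
  refine ⟨δ, hδ, m₀, fun d m hm => ?_⟩
  refine le_trans (le_of_eq ?_) (h d m hm)
  congr 1
  symm
  refine Finset.card_bij (fun (x : ℕ) _ => (x : ℤ)) ?_ ?_ ?_
  · intro x hx
    rw [mem_filter] at hx
    rw [mem_filter]
    refine ⟨?_, fun h3 => hx.2.1 ?_, hx.2.2⟩
    · simp only [Finset.bind_def, Finset.pure_def, Finset.mem_sup, Finset.mem_singleton]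
      exact ⟨x, hx.1, rfl⟩
    · have := Int.natCast_dvd_natCast (m := 3) (n := x)
      exact_mod_cast h3
  · intro x _ y _ hxy
    exact_mod_cast hxy
  · intro y hy
    rw [mem_filter] at hy
    obtain ⟨h1, h2, h3⟩ := hy
    simp only [Finset.bind_def, Finset.pure_def, Finset.mem_sup, Finset.mem_singleton] at h1
    obtain ⟨x, hx, rfl⟩ := h1
    refine ⟨x, ?_, rfl⟩
    rw [mem_filter]
    refine ⟨hx, fun h4 => h2 ?_, h3⟩
    exact_mod_cast h4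

end Pool.Agent.Lib.MP_edb5be_nt.ND.H72
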